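import Pool.Agent.W_MP_7f6900_al.Tab

set_option autoImplicit false

open MP_7f6900_al

namespace Pool.Agent.Results.MP_7f6900_al.IsotypicRational

/-- Let `K` be a field of characteristic zero, `I ≠ 0` a homogeneous symmetric ideal of
`K[x_0, x_1, ...]` and `μ` a partition. Then for every degree `d` the multiplicity of the Specht
module `V^{μ(n)}` in `[K[X_n]/I_n]_d` is constant for large `n`, and the power series of these
limits (the isotypic Hilbert series `H^μ(K[X]/I; t)`) is a rational function `p/q` with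
`q(0) ≠ 0`. -/
theorem result (K : Type*) [Field K] [CharZero K] (I : HomSymIdeal K) (hI : I.ideal ≠ ⊥)
    (μ : YoungDiagram) :
    ∃ (p q : Polynomial ℚ) (H : PowerSeries ℚ), q.coeff 0 ≠ 0 ∧
      (q : PowerSeries ℚ) * H = (p : PowerSeries ℚ) ∧
      ∀ d : ℕ, ∃ n₀ : ℕ, ∀ n : ℕ, n₀ ≤ n → Nonempty (Fin n ≃ (pad μ n).cells) ∧
        ∀ t : Fin n ≃ (pad μ n).cells, (I.mult n d t : ℚ) = PowerSeries.coeff d H := by
  obtain ⟨H, ⟨p, q, hq, hpq⟩, hH⟩ := MP7f.rational_FF (MP7f.mm μ) (MP7f.aμ K μ) (MP7f.τμ μ)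
    μ.card (fun x k hk => MP7f.τμ_fix μ x k hk) I.ideal (MP7f.permInv_of I) I.homogeneous hI
  refine ⟨p, q, H, hq, hpq, fun d => ?_⟩
  obtain ⟨n₀, hn₀⟩ := hH d
  refine ⟨max n₀ μ.card, fun n hn => ⟨⟨MP7f.t0 μ (le_of_max_le_right hn)⟩, fun t => ?_⟩⟩
  rw [MP7f.mult_eq I μ (le_of_max_le_right hn) d t]
  exact hn₀ n (le_of_max_le_left hn)

end Pool.Agent.Results.MP_7f6900_al.IsotypicRational
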